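import Pool.Agent.H94.C1.Targets
import Pool.Agent.H22.KL.GRAM

/-! Row KIS of the board `c1_modules`: the kernel inequality for bounded measurable functions. -/

set_option autoImplicit false

namespace Pool.Agent.H22.C1

open MeasureTheory Set FourierTransform Pool.Agent.H82.KL Pool.Agent.H94.C1 Pool.Agent.H22.KL
open Filter Topology
open scoped ENNReal NNReal SchwartzMap ComplexConjugate

theorem ka_mono {d : ℕ} (R : ℝ) {g g' : EE d → ℝ≥0∞} (h : ∀ y, g y ≤ g' y) (x : EE d) :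
    ka R g x ≤ ka R g' x :=
  lintegral_mono fun y => mul_le_mul_left (h y) _

/-- the right side -/
noncomputable def rh (d : ℕ) (p R : ℝ) (g : EE d → ℝ≥0∞) : ℝ≥0∞ :=
  if p ≤ 3 then
    ENNReal.ofReal (R ^ (3 - p - ((d : ℝ) - 1) * (p - 2) / 2)) *
      ∫⁻ x, g x ^ 2 * ka R g x ^ (p - 2)
  else ENNReal.ofReal (R ^ (((d : ℝ) - 1) * (p - 3) - ((d : ℝ) - 1) * (p - 2) / 2)) *
    ∫⁻ x, g x ^ 2 * ka R (fun y => g y ^ (p - 2)) x

theorem rh_mono (d : ℕ) {p : ℝ} (hp : 2 < p) (R : ℝ) {g g' : EE d → ℝ≥0∞}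
    (h : ∀ y, g y ≤ g' y) : rh d p R g ≤ rh d p R g' := by
  unfold rh
  split_ifs
  · refine mul_le_mul_right (lintegral_mono fun x => ?_) _
    exact mul_le_mul' (pow_le_pow_left' (h x) 2)
      (ENNReal.rpow_le_rpow (ka_mono R h x) (by linarith))
  · refine mul_le_mul_right (lintegral_mono fun x => ?_) _
    exact mul_le_mul' (pow_le_pow_left' (h x) 2)
      (ka_mono R (fun y => ENNReal.rpow_le_rpow (h y) (by linarith)) x)

theorem ki_bc (hA : T_KIA) (hB : T_KIB) (d : ℕ) (p : ℝ) (a : EE d → ℂ) (hd : 3 ≤ d) (hp : 2 < p)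
    (ha : Sym a) : ∃ C : ℝ≥0, ∀ (R : ℝ) (f : EE d → ℂ), 1 ≤ R → BC f →
    ∫⁻ t in Icc R (2 * R), ∫⁻ x : EE d, ‖W a f (x, t)‖ₑ ^ p ≤
      C * rh d p R (fun y => ‖f y‖ₑ) := by
  rcases lt_trichotomy p 3 with h3 | h3 | h3
  · obtain ⟨C, hC⟩ := hA d p a hd hp h3 ha
    refine ⟨C, fun R f hR hf => (hC R f hR hf).trans (le_of_eq ?_)⟩
    unfold rh
    rw [if_pos h3.le, mul_assoc]
  · obtain ⟨C, hC⟩ := hB d p a hd h3.ge ha
    refine ⟨C, fun R f hR hf => (hC R f hR hf).trans (le_of_eq ?_)⟩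
    subst h3
    unfold rh
    rw [if_pos le_rfl, mul_assoc]
    have e1 : (3 : ℝ) - 2 = 1 := by norm_num
    have e2 : ((d : ℝ) - 1) * (3 - 3) - ((d : ℝ) - 1) * (3 - 2) / 2 =
        3 - 3 - ((d : ℝ) - 1) * (3 - 2) / 2 := by ring
    rw [e2]
    simp only [e1, ENNReal.rpow_one]
  · obtain ⟨C, hC⟩ := hB d p a hd h3.le ha
    refine ⟨C, fun R f hR hf => (hC R f hR hf).trans (le_of_eq ?_)⟩
    unfold rh
    rw [if_neg (not_le.2 h3), mul_assoc]

theorem W_meas {d : ℕ} {a f : EE d → ℂ} (ha : Sym a) (hf : Measurable f) : Measurable (W a f) := by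
  have h1 : StronglyMeasurable (fun q : (EE d × ℝ) × EE d =>
      U a (q.1.1 - q.2, q.1.2) * f q.2) := by
    refine Measurable.stronglyMeasurable ?_
    refine Measurable.mul ?_ (hf.comp measurable_snd)
    exact ((continuous_U ha).comp (by fun_prop :
      Continuous fun q : (EE d × ℝ) × EE d => (q.1.1 - q.2, q.1.2))).measurable
  exact h1.integral_prod_right'.measurable

theorem W_int {d : ℕ} {a f : EE d → ℂ} (ha : Sym a) (hf : BM f) (z : EE d × ℝ) :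
    Integrable (fun y : EE d => U a (z.1 - y, z.2) * f y) := by
  obtain ⟨hm, A, hA⟩ := hf
  obtain ⟨-, -, h, -⟩ := gram_main d a ha
  exact (h z).1.mul_bdd hm.aestronglyMeasurable (Eventually.of_forall hA)

/-- truncations -/
noncomputable def cut {d : ℕ} (f : EE d → ℂ) (n : ℕ) (y : EE d) : ℂ :=
  if ‖y‖ ≤ n then f y else 0

theorem cut_le {d : ℕ} (f : EE d → ℂ) (n : ℕ) (y : EE d) : ‖cut f n y‖ ≤ ‖f y‖ := by
  unfold cut
  split_ifs
  · exact le_rfl
  · rw [norm_zero]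
    exact norm_nonneg _

theorem cut_meas {d : ℕ} {f : EE d → ℂ} (hf : Measurable f) (n : ℕ) : Measurable (cut f n) :=
  Measurable.ite (measurableSet_le measurable_norm measurable_const) hf measurable_const

theorem cut_bc {d : ℕ} {f : EE d → ℂ} (hf : BM f) (n : ℕ) : BC (cut f n) := by
  obtain ⟨hm, A, hA⟩ := hf
  refine ⟨cut_meas hm n, ⟨A, fun y => (cut_le f n y).trans (hA y)⟩, n, fun y hy => ?_⟩
  unfold cut
  rw [if_neg (not_le.2 hy)]

theorem cut_tendsto {d : ℕ} (f : EE d → ℂ) (y : EE d) :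
    Tendsto (fun n => cut f n y) atTop (𝓝 (f y)) := by
  refine tendsto_const_nhds.congr' ?_
  obtain ⟨N, hN⟩ := exists_nat_ge ‖y‖
  filter_upwards [eventually_ge_atTop N] with n hn
  unfold cut
  rw [if_pos (hN.trans (by exact_mod_cast hn))]

theorem W_cut {d : ℕ} {a f : EE d → ℂ} (ha : Sym a) (hf : BM f) (z : EE d × ℝ) :
    Tendsto (fun n => W a (cut f n) z) atTop (𝓝 (W a f z)) := by
  unfold W
  refine tendsto_integral_of_dominated_convergence
    (fun y => ‖U a (z.1 - y, z.2) * f y‖) (fun n => ?_) (W_int ha hf z).norm (fun n => ?_) ?_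
  · refine Measurable.aestronglyMeasurable ?_
    refine Measurable.mul ?_ (cut_meas hf.1 n)
    exact ((continuous_U ha).comp (by fun_prop :
      Continuous fun y : EE d => (z.1 - y, z.2))).measurable
  · refine Eventually.of_forall fun y => ?_
    rw [norm_mul, norm_mul]
    exact mul_le_mul_of_nonneg_left (cut_le f n y) (norm_nonneg _)
  · exact Eventually.of_forall fun y => (cut_tendsto f y).const_mul _

theorem enorm_lim (p : ℝ) {u : ℕ → ℂ} {w : ℂ} (h : Tendsto u atTop (𝓝 w)) :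
    liminf (fun n => ‖u n‖ₑ ^ p) atTop = ‖w‖ₑ ^ p := by
  have h1 : Tendsto (fun n => ‖u n‖ₑ) atTop (𝓝 ‖w‖ₑ) := h.enorm
  have h2 : Tendsto (fun n => ‖u n‖ₑ ^ p) atTop (𝓝 (‖w‖ₑ ^ p)) :=
    ((ENNReal.continuous_rpow_const (y := p)).tendsto ‖w‖ₑ).comp h1
  exact h2.liminf_eq

theorem fatou2 {α β : Type*} [MeasurableSpace α] [MeasurableSpace β] (μ : Measure α)
    (ν : Measure β) [SFinite ν] (F : ℕ → α × β → ℝ≥0∞) (hF : ∀ n, Measurable (F n)) (B : ℝ≥0∞)
    (h : ∀ n, ∫⁻ t, ∫⁻ x, F n (t, x) ∂ν ∂μ ≤ B) :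
    ∫⁻ t, ∫⁻ x, liminf (fun n => F n (t, x)) atTop ∂ν ∂μ ≤ B := by
  calc ∫⁻ t, ∫⁻ x, liminf (fun n => F n (t, x)) atTop ∂ν ∂μ
      ≤ ∫⁻ t, liminf (fun n => ∫⁻ x, F n (t, x) ∂ν) atTop ∂μ :=
        lintegral_mono fun t => lintegral_liminf_le fun n =>
          (hF n).comp measurable_prodMk_left
    _ ≤ liminf (fun n => ∫⁻ t, ∫⁻ x, F n (t, x) ∂ν ∂μ) atTop :=
        lintegral_liminf_le fun n => (hF n).lintegral_prod_right'
    _ ≤ B := by
        refine liminf_le_of_le (by isBoundedDefault) fun b hb => ?_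
        obtain ⟨n, hn⟩ := hb.exists
        exact hn.trans (h n)

theorem ki_bm (hA : T_KIA) (hB : T_KIB) (d : ℕ) (p : ℝ) (a : EE d → ℂ) (hd : 3 ≤ d) (hp : 2 < p)
    (ha : Sym a) : ∃ C : ℝ≥0, ∀ (R : ℝ) (f : EE d → ℂ), 1 ≤ R → BM f →
    ∫⁻ t in Icc R (2 * R), ∫⁻ x : EE d, ‖W a f (x, t)‖ₑ ^ p ≤
      C * rh d p R (fun y => ‖f y‖ₑ) := by
  obtain ⟨C, hC⟩ := ki_bc hA hB d p a hd hp ha
  refine ⟨C, fun R f hR hf => ?_⟩
  have hm : ∀ n, Measurable fun q : ℝ × EE d => ‖W a (cut f n) (q.2, q.1)‖ₑ ^ p := fun n =>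
    ((W_meas ha (cut_meas hf.1 n)).comp (by fun_prop : Measurable fun q : ℝ × EE d =>
      (q.2, q.1))).enorm.pow_const p
  have h1 : ∀ (t : ℝ) (x : EE d), ‖W a f (x, t)‖ₑ ^ p =
      liminf (fun n => ‖W a (cut f n) (x, t)‖ₑ ^ p) atTop :=
    fun t x => (enorm_lim p (W_cut ha hf (x, t))).symm
  simp only [h1]
  refine fatou2 (volume.restrict (Icc R (2 * R))) volume
    (fun n q => ‖W a (cut f n) (q.2, q.1)‖ₑ ^ p) hm _ fun n => ?_
  refine (hC R (cut f n) hR (cut_bc hf n)).trans ?_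
  refine mul_le_mul_right (rh_mono d hp R fun y => ?_) _
  rw [← ofReal_norm, ← ofReal_norm]
  exact ENNReal.ofReal_le_ofReal (cut_le f n y)

/-! ### Negative times -/

/-- the reflected symbol -/
noncomputable def ref {d : ℕ} (a : EE d → ℂ) (ξ : EE d) : ℂ := conj (a (-ξ))

theorem sym_ref {d : ℕ} {a : EE d → ℂ} (ha : Sym a) : Sym (ref a) := by
  have h1 : HasCompactSupport fun ξ : EE d => a (-ξ) :=
    ha.2.1.comp_homeomorph (Homeomorph.neg (EE d))
  have h2 : tsupport (fun ξ : EE d => a (-ξ)) = (Homeomorph.neg (EE d)) ⁻¹' tsupport a :=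
    tsupport_comp_eq_preimage a (Homeomorph.neg (EE d))
  refine ⟨?_, ?_, ?_⟩
  · exact (Complex.conjCLE.contDiff).comp (ha.1.comp contDiff_neg)
  · exact h1.comp_left (map_zero _)
  · intro h0
    have h3 : tsupport (ref a) ⊆ tsupport fun ξ : EE d => a (-ξ) := by
      refine closure_mono fun ξ hξ => ?_
      intro h4
      apply hξ
      have h5 : a (-ξ) = 0 := h4
      show conj (a (-ξ)) = 0
      rw [h5, map_zero]
    have h4 := h3 h0
    rw [h2] at h4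
    have h5 : (Homeomorph.neg (EE d)) (0 : EE d) = 0 := neg_zero
    rw [mem_preimage, h5] at h4
    exact ha.2.2 h4

theorem U_ref {d : ℕ} (a : EE d → ℂ) (x : EE d) (t : ℝ) :
    U a (x, -t) = conj (U (ref a) (x, t)) := by
  unfold U
  rw [← integral_conj, ← integral_neg_eq_self]
  congr 1
  funext ξ
  simp only [ref, norm_neg, inner_neg_right, map_mul, Complex.conj_conj, neg_neg, conj_e]
  congr 2
  ring

theorem W_ref {d : ℕ} (a f : EE d → ℂ) (x : EE d) (t : ℝ) :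
    W a f (x, -t) = conj (W (ref a) (fun y => conj (f y)) (x, t)) := by
  unfold W
  rw [← integral_conj]
  congr 1
  funext y
  simp only [map_mul, Complex.conj_conj]
  rw [U_ref]

theorem pf_KIS (hA : T_KIA) (hB : T_KIB) : T_KIS := by
  intro d p a hd hp ha
  obtain ⟨C₁, h1⟩ := ki_bm hA hB d p a hd hp ha
  obtain ⟨C₂, h2⟩ := ki_bm hA hB d p (ref a) hd hp (sym_ref ha)
  refine ⟨max C₁ C₂, fun R ε f hR hε hf => ?_⟩
  have hrh : (max C₁ C₂ : ℝ≥0) * rh d p R (fun y => ‖f y‖ₑ) = (max C₁ C₂ : ℝ≥0) * (if p ≤ 3 then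
      ENNReal.ofReal (R ^ (3 - p - ((d : ℝ) - 1) * (p - 2) / 2)) *
        ∫⁻ x, ‖f x‖ₑ ^ 2 * ka R (fun y => ‖f y‖ₑ) x ^ (p - 2)
      else ENNReal.ofReal (R ^ (((d : ℝ) - 1) * (p - 3) - ((d : ℝ) - 1) * (p - 2) / 2)) *
        ∫⁻ x, ‖f x‖ₑ ^ 2 * ka R (fun y => ‖f y‖ₑ ^ (p - 2)) x) := rfl
  rw [← hrh]
  rcases hε with rfl | rfl
  · simp only [one_mul]
    refine (h1 R f hR hf).trans (mul_le_mul_left ?_ _)
    exact_mod_cast le_max_left C₁ C₂
  · have hc : BM (fun y => conj (f y)) := by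
      obtain ⟨hm, A, hb⟩ := hf
      refine ⟨(Complex.continuous_conj.measurable).comp hm, A, fun y => ?_⟩
      rw [RCLike.norm_conj]
      exact hb y
    have h3 := h2 R (fun y => conj (f y)) hR hc
    have h4 : ∀ (t : ℝ) (x : EE d), ‖W (ref a) (fun y => conj (f y)) (x, t)‖ₑ =
        ‖W a f (x, -1 * t)‖ₑ := by
      intro t x
      rw [neg_one_mul, W_ref, ← ofReal_norm, ← ofReal_norm, RCLike.norm_conj]
    have h5 : ∀ y, ‖conj (f y)‖ₑ = ‖f y‖ₑ := by
      intro y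
      rw [← ofReal_norm, ← ofReal_norm, RCLike.norm_conj]
    simp only [h4, h5] at h3
    refine h3.trans (mul_le_mul_left ?_ _)
    exact_mod_cast le_max_right C₁ C₂

end Pool.Agent.H22.C1
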