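import Pool.Agent.H94.C1.Targets

/-! Row PT of the board `c1_modules`: pointwise bound by averages over light cones. -/

set_option autoImplicit false

namespace Pool.Agent.H22.C1

open MeasureTheory Set FourierTransform Pool.Agent.H82.KL Pool.Agent.H94.C1
open scoped ENNReal NNReal SchwartzMap

theorem pf_PT (hK : T_K1) : T_PT := by
  intro d a hd ha
  obtain ⟨C, hC, hb⟩ := hK d (d + 8) a hd ha
  refine ⟨C.toNNReal, fun R f z hR h1 h2 => ?_⟩
  have hR0 : (0 : ℝ) < R := by linarith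
  have hz0 : 0 ≤ z.2 := by linarith
  unfold W av
  refine (enorm_integral_le_lintegral_enorm _).trans ?_
  rw [← lintegral_const_mul' _ _ (by
    refine ENNReal.mul_ne_top ENNReal.coe_ne_top ENNReal.ofReal_ne_top)]
  refine lintegral_mono fun y => ?_
  rw [enorm_mul]
  have h3 : ‖U a (z.1 - y, z.2)‖ ≤ C * R ^ (-(((d : ℝ) - 1) / 2)) *
      ((1 + abs (‖z.1 - y‖ - z.2)) ^ (d + 8))⁻¹ := by
    refine (hb (z.1 - y) z.2).trans ?_
    rw [abs_of_nonneg hz0]
    refine mul_le_mul_of_nonneg_right ?_ (by positivity)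
    refine mul_le_mul_of_nonneg_left ?_ hC
    refine Real.rpow_le_rpow_of_nonpos hR0 (by linarith [norm_nonneg (z.1 - y)]) ?_
    have : (1 : ℝ) ≤ d := by exact_mod_cast hd
    linarith
  have h4 : ‖U a (z.1 - y, z.2)‖ₑ ≤ (C.toNNReal : ℝ≥0∞) *
      ENNReal.ofReal (R ^ (-(((d : ℝ) - 1) / 2))) *
      ENNReal.ofReal (((1 + abs (‖z.1 - y‖ - z.2)) ^ (d + 8))⁻¹) := by
    rw [← ofReal_norm]
    refine (ENNReal.ofReal_le_ofReal h3).trans (le_of_eq ?_)
    rw [ENNReal.ofReal_mul (by positivity), ENNReal.ofReal_mul hC]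
    rfl
  calc ‖U a (z.1 - y, z.2)‖ₑ * ‖f y‖ₑ ≤ (C.toNNReal : ℝ≥0∞) *
      ENNReal.ofReal (R ^ (-(((d : ℝ) - 1) / 2))) *
      ENNReal.ofReal (((1 + abs (‖z.1 - y‖ - z.2)) ^ (d + 8))⁻¹) * ‖f y‖ₑ :=
        mul_le_mul_left h4 _
    _ = _ := by ring

end Pool.Agent.H22.C1
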