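import Pool.Agent.H94.C1.Targets
import Pool.Agent.H22.KL.K1
import Pool.Agent.H22.KL.GRAM

/-! Row SCL of the board `c1_modules`: scaling of the half wave operator. -/

set_option autoImplicit false

namespace Pool.Agent.H22.C1

open MeasureTheory Set FourierTransform Pool.Agent.H82.KL Pool.Agent.H94.C1 Pool.Agent.H22.KL
open scoped ENNReal NNReal SchwartzMap

theorem JW_scale {d : ℕ} (a : EE d → ℂ) {lam : ℝ} (hl : 0 < lam) (y : EE d) (s : ℝ) :
    JW (fun ξ => a (lam⁻¹ • ξ)) y s = (lam ^ d : ℝ) • U a (lam • y, lam * s) := by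
  unfold JW U
  have h := Measure.integral_comp_inv_smul_of_nonneg (volume : Measure (EE d))
    (fun ξ : EE d => e (inner ℝ (lam • y) ξ + lam * s * ‖ξ‖) * a ξ) hl.le
  rw [finrank_euclideanSpace, Fintype.card_fin] at h
  rw [← h]
  congr 1
  funext ξ
  have h1 : inner ℝ (lam • y) (lam⁻¹ • ξ) = inner ℝ y ξ := by
    rw [inner_smul_left, inner_smul_right]
    simp only [conj_trivial]
    rw [← mul_assoc, mul_inv_cancel₀ hl.ne', one_mul]
  have h2 : lam * s * ‖lam⁻¹ • ξ‖ = s * ‖ξ‖ := by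
    rw [norm_smul, norm_inv, Real.norm_of_nonneg hl.le]
    field_simp
  rw [h1, h2]

theorem pf_SCL : T_SCL := by
  intro d a ε lam t u x ha hl
  have hw : HasCompactSupport (fun ξ : EE d => a (lam⁻¹ • ξ)) :=
    ha.2.1.comp_homeomorph (Homeomorph.smulOfNeZero lam⁻¹ (inv_ne_zero hl.ne'))
  have hc : Continuous (fun ξ : EE d => a (lam⁻¹ • ξ)) :=
    ha.1.continuous.comp (continuous_const_smul _)
  have h1 : HP a ε lam t u x =
      U (fun ξ => a (lam⁻¹ • ξ) * 𝓕 (u : EE d → ℂ) ξ) (x, ε * t) := by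
    unfold HP H83.LS.MM U
    congr 1
    funext ξ
    have h2 : e (inner ℝ x ξ + ε * t * ‖ξ‖) = e (inner ℝ x ξ) * e (ε * t * ‖ξ‖) := e_add _ _
    simp only
    rw [h2]
    have h3 : H83.LS.e (inner ℝ x ξ) = e (inner ℝ x ξ) := rfl
    rw [h3]
    ring
  rw [h1, U_conv _ (fun ξ => a (lam⁻¹ • ξ)) u (hc.integrable_of_hasCompactSupport hw) hc
    (fun ξ => rfl)]
  unfold W
  have h := Measure.integral_comp_inv_smul_of_nonneg (volume : Measure (EE d))
    (fun y : EE d => U a (lam • x - lam • y, ε * (lam * t)) * u y) hl.le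
  rw [finrank_euclideanSpace, Fintype.card_fin] at h
  have h4 : ∀ y : EE d, U a (lam • x - lam • (lam⁻¹ • y), ε * (lam * t)) * u (lam⁻¹ • y) =
      U a (lam • x - y, ε * (lam * t)) * u (lam⁻¹ • y) := by
    intro y
    rw [smul_smul, mul_inv_cancel₀ hl.ne', one_smul]
  simp only [h4] at h
  rw [h, ← integral_smul]
  congr 1
  funext y
  rw [JW_scale a hl, smul_sub, show lam * (ε * t) = ε * (lam * t) by ring,
    Complex.real_smul, Complex.real_smul]
  ring

end Pool.Agent.H22.C1
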